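import Pool.Agent.Lib.RAG.B_SMV
import Pool.Agent.Lib.RAG.B_LIM
import Pool.Agent.Lib.KP.B_EXTD
import Pool.Agent.Lib.SV.Ext85

/-! Project ra2: uniform bounds, limits and division of sections. -/

open scoped Classical Topology ContDiff ComplexOrder Matrix ENNReal
open Set MeasureTheory Complex Metric Filter

noncomputable section

namespace Pool.Agent.Lib.RA2.T45

open Pool.Agent.Lib.SV (E nsq)
open Pool.Agent.Lib.HS32

variable {n : ℕ} {M : Mf n} [M.Cpt] {G : M.Fam (Mat n)} {L : M.Co} {Φ : M.Fam ℝ}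

/-- The uniform norm is bounded by the integral norm. -/
theorem supb45 (hG : M.Met G) (hΦ : M.WtC L Φ) : ∃ C : ℝ, 0 ≤ C ∧ ∀ (s : M.Fam ℂ) (A : ℝ),
    M.HSecC L s → ∫ y, M.nrC Φ s y ∂M.mu G ≤ A → ∀ x, M.nrC Φ s x ≤ C * A := by
  obtain ⟨V, hV⟩ := (mCOV n M).2.2.1
  have h1 : ∀ a, closedBall (V.c a) (2 * 1) ⊆ (V.e a).target := fun a =>
    (closedBall_subset_closedBall (by rw [(hV a).2]; norm_num)).trans (V.sub a)
  choose C hC0 hC using fun a => RAG.st_SMV n M G L Φ (V.e a) (V.c a) 1 hG hΦ (V.mem a) (h1 a)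
  refine ⟨∑ a, C a, Finset.sum_nonneg fun a _ => hC0 a, fun s A hs hA x => ?_⟩
  have hA0 : 0 ≤ A := (integral_nonneg (Mf.nrC_nonneg _ _)).trans hA
  obtain ⟨a, hx, hb, -⟩ := V.cov x
  rw [(hV a).2] at hb
  have e0 : (Φ + fun (e : M.Ch) (z : E n) => (fun _ : M.X => (0 : ℝ)) (e.symm z)) = Φ := by
    funext e z; simp
  have h2 := hC a s (fun _ => 0) A 0 1 hs (Mf.sm_const 0) (by rw [e0]; exact hA) one_pos le_rfl
    _ hb fun _ _ => le_rfl
  rw [(V.e a).left_inv hx, one_pow, mul_one, Real.exp_zero, mul_one] at h2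
  exact h2.trans (mul_le_mul_of_nonneg_right
    (Finset.single_le_sum (fun a _ => hC0 a) (Finset.mem_univ a)) hA0)

theorem nsq_sub {u v : ℂ} {K : ℝ} (hu : ‖u‖ ≤ K) (hv : ‖v‖ ≤ K) :
    |normSq u - normSq v| ≤ 2 * K * dist u v := by
  rw [normSq_eq_norm_sq, normSq_eq_norm_sq, sq_sub_sq, abs_mul, dist_eq_norm,
    abs_of_nonneg (by positivity)]
  exact mul_le_mul (by linarith) (abs_norm_sub_norm_le u v) (abs_nonneg _)
    (by linarith [norm_nonneg u])

/-- Limits of bounded families of sections along an ultrafilter. -/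
theorem limu45 (hG : M.Met G) (hΦ : M.WtC L Φ) {κ : Type} (l : Ultrafilter κ) {s : κ → M.Fam ℂ}
    {B : ℝ} (hs : ∀ a, M.HSecC L (s a)) (hB : ∀ a x, M.nrC Φ (s a) x ≤ B) :
    ∃ t, M.HSecC L t ∧ (M.All fun e z => Tendsto (fun a => s a e z) l (𝓝 (t e z)) ∧
      Tendsto (fun a => fderiv ℂ (s a e) z) l (𝓝 (fderiv ℂ (t e) z))) ∧
      ∀ Ψ, M.WtC L Ψ → TendstoUniformly (fun a => M.nrC Ψ (s a)) (M.nrC Ψ t) l ∧
        ∀ A : ℝ, (∀ᶠ a in l, ∫ y, M.nrC Ψ (s a) y ∂M.mu G ≤ A) →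
          ∫ y, M.nrC Ψ t y ∂M.mu G ≤ A := by
  obtain ⟨t, ht, hl⟩ := RAG.st_LIM n M L Φ κ l s B hΦ hs hB
  have bd : ∀ e ∈ M.C, ∀ x ∈ e.target, ∃ K : ℝ, ∃ V ∈ 𝓝 x, V ⊆ e.target ∧ ∀ a, ∀ z ∈ V,
      ‖s a e z‖ ≤ K := by
    intro e he x hx
    refine ⟨√(|B| * Real.exp (Φ e x + 1)), {z | z ∈ e.target ∧ Φ e z < Φ e x + 1},
      (e.open_target.eventually_mem hx).and
        ((hΦ.sm e he x hx).continuousAt.eventually (gt_mem_nhds (lt_add_one _))),
      fun z hz => hz.1, fun a z hz => ?_⟩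
    have h1 : normSq (s a e z) * Real.exp (-Φ e z) ≤ B :=
      (hΦ.nr_rep (hs a).toSecC e he z hz.1).symm.trans_le (hB a (e.symm z))
    rw [Real.exp_neg, mul_inv_le_iff₀ (Real.exp_pos _), Complex.normSq_eq_norm_sq] at h1
    exact Real.le_sqrt_of_sq_le (h1.trans (mul_le_mul (le_abs_self B) (Real.exp_le_exp.2 hz.2.le)
      (Real.exp_pos _).le (abs_nonneg B)))
  have hd : ∀ a, ∀ e ∈ M.C, DifferentiableOn ℂ (s a e) e.target := fun a e he z hz =>
    ((hs a).hol e he z hz).differentiableWithinAt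
  refine ⟨t, ht, fun e he z hz => ⟨hl e he z hz, ?_⟩, fun Ψ hΨ => ?_⟩
  · refine (SV.H85.differentiableOn_of_tendsto (l := (l : Filter κ)) (f := fun a => s a e)
      e.open_target (Eventually.of_forall fun a => hd a e he) (fun x hx => ?_)
      fun z hz => hl e he z hz).2 z hz
    obtain ⟨K, V, hV, -, hK⟩ := bd e he x hx
    exact ⟨K, V, hV, Eventually.of_forall hK⟩
  have hu : TendstoUniformly (fun a => M.nrC Ψ (s a)) (M.nrC Ψ t) l := by
    rw [← tendstoLocallyUniformly_iff_tendstoUniformly_of_compactSpace,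
      ← tendstoLocallyUniformlyOn_univ]
    refine SV.H85.tendstoLocallyUniformlyOn_of_equi (fun x _ ε hε => ?_) fun y _ => ?_
    · rw [nhdsWithin_univ]
      have he := Mf.ch_mem x
      have hx := Mf.mem_ch x
      set e := M.ch x
      obtain ⟨K, V, hV, hVt, hK⟩ := bd e he _ (e.map_source hx)
      set p : E n → ℝ := fun z => Real.exp (-Ψ e z) with hp
      have p0 : 0 < p (e x) := Real.exp_pos _
      have pc : ContinuousAt p (e x) := (hΨ.sm e he _ (e.map_source hx)).neg.exp.continuousAt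
      have d1 : 0 < ε / 2 / ((2 * |K| + 1) * p (e x)) := by positivity
      have d2 : 0 < ε / 2 / (K ^ 2 + 1) := by positivity
      have q1 := SV.H85.equi_of_bound (f := fun a => s a e) hV (fun a => (hd a e he).mono hVt) hK d1
      have q2 := Metric.tendsto_nhds.1 pc _ d2
      filter_upwards [(e.continuousAt hx).eventually (q1.and (q2.and hV)),
        e.open_source.mem_nhds hx] with y ⟨y1, y2, y3⟩ hy a
      rw [(hΨ.nr_rep (hs a).toSecC).at he hx, (hΨ.nr_rep (hs a).toSecC).at he hy, Real.dist_eq]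
      have k1 := hK a _ (mem_of_mem_nhds hV)
      have k2 := hK a _ y3
      have k0 : 0 ≤ K := (norm_nonneg _).trans k1
      have a1 := nsq_sub k1 k2
      have a2 : normSq (s a e (e y)) ≤ K ^ 2 := by
        rw [normSq_eq_norm_sq]; gcongr
      have a3 := y1 a
      rw [abs_of_nonneg k0, lt_div_iff₀ (by positivity)] at a3
      rw [lt_div_iff₀ (by positivity), Real.dist_eq, abs_sub_comm] at y2
      have a4 := dist_nonneg (x := s a e (e x)) (y := s a e (e y))
      have a5 := abs_nonneg (p (e x) - p (e y))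
      calc _ = |(normSq (s a e (e x)) - normSq (s a e (e y))) * p (e x) +
            normSq (s a e (e y)) * (p (e x) - p (e y))| := by
            congr 1; simp only [hp]; ring
        _ ≤ 2 * K * dist (s a e (e x)) (s a e (e y)) * p (e x) + K ^ 2 * |p (e x) - p (e y)| := by
            refine (abs_add_le _ _).trans (add_le_add ?_ ?_)
            · rw [abs_mul, abs_of_pos p0]; gcongr
            · rw [abs_mul, abs_of_nonneg (normSq_nonneg _)]; gcongr
        _ < ε := by nlinarith [mul_nonneg a4 p0.le]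
    · exact ((continuous_normSq.tendsto _).comp (hl.ch y)).mul_const _
  refine ⟨hu, fun A hA => ?_⟩
  obtain ⟨-, hfin, -, hpos, hint, -⟩ := mMU n M G hG
  refine le_of_forall_pos_le_add fun ε hε => ?_
  obtain ⟨a, h1, h2⟩ := (hA.and (Metric.tendstoUniformly_iff.1 hu _ (div_pos hε hpos))).exists
  have i1 := hint _ _ (hΨ.nr_sm (hs a).toSecC).continuous
  calc _ ≤ ∫ y, (M.nrC Ψ (s a) y + ε / (M.mu G).real univ) ∂M.mu G := by
        refine integral_mono (hint _ _ (hΨ.nr_sm ht.toSecC).continuous)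
          (i1.add (integrable_const _)) fun y => ?_
        have := h2 y
        rw [Real.dist_eq] at this
        have := le_of_abs_le this.le
        beta_reduce
        linarith
    _ ≤ _ := by
        rw [integral_add i1 (integrable_const _), integral_const, smul_eq_mul,
          mul_div_cancel₀ _ hpos.ne']
        linarith

omit [M.Cpt] in
theorem nr_mono {Ψ Ψ' : M.Fam ℝ} (h : M.All fun e z => Ψ e z ≤ Ψ' e z) (s : M.Fam ℂ) (x : M.X) :
    M.nrC Ψ' s x ≤ M.nrC Ψ s x :=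
  mul_le_mul_of_nonneg_left (Real.exp_le_exp.2 (neg_le_neg (h.ch x))) (normSq_nonneg _)

/-- Limits of sections with bounded norms for a decreasing family of weights. -/
theorem lim45 (hG : M.Met G) {F : ℝ → M.Fam ℝ} {s : ℝ → M.Fam ℂ} {A : ℝ}
    (hF : ∀ d ∈ Ioc (0 : ℝ) 1, M.WtC L (F d))
    (hm : ∀ d d' : ℝ, 0 < d → d ≤ d' → d' ≤ 1 → M.All fun e z => F d e z ≤ F d' e z)
    (hs : ∀ d ∈ Ioc (0 : ℝ) 1, M.HSecC L (s d) ∧ ∫ y, M.nrC (F d) (s d) y ∂M.mu G ≤ A) :
    ∃ t, M.HSecC L t ∧ (∀ d ∈ Ioc (0 : ℝ) 1, ∫ y, M.nrC (F d) t y ∂M.mu G ≤ A) ∧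
      M.All fun e z => ∀ S : Set (ℂ × (E n →L[ℂ] ℂ)), IsClosed S →
        (∀ d ∈ Ioc (0 : ℝ) 1, (s d e z, fderiv ℂ (s d e) z) ∈ S) → (t e z, fderiv ℂ (t e) z) ∈ S := by
  obtain ⟨-, -, -, -, hint, -⟩ := mMU n M G hG
  have m1 : (1 : ℝ) ∈ Ioc (0 : ℝ) 1 := ⟨one_pos, le_rfl⟩
  have md : ∀ k : ℕ, 1 / ((k : ℝ) + 1) ∈ Ioc (0 : ℝ) 1 := fun k =>
    ⟨by positivity, by rw [div_le_one (by positivity)]; linarith [k.cast_nonneg (α := ℝ)]⟩
  have key : ∀ d ∈ Ioc (0 : ℝ) 1, ∀ d' ∈ Ioc (0 : ℝ) 1, d ≤ d' →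
      ∫ y, M.nrC (F d') (s d) y ∂M.mu G ≤ A := fun d hd d' hd' h =>
    (integral_mono (hint _ _ ((hF d' hd').nr_sm (hs d hd).1.toSecC).continuous)
      (hint _ _ ((hF d hd).nr_sm (hs d hd).1.toSecC).continuous)
      (nr_mono (hm d d' hd.1 h hd'.2) _)).trans (hs d hd).2
  obtain ⟨C, -, hC⟩ := supb45 hG (hF 1 m1)
  obtain ⟨t, ht, hl, hi⟩ := limu45 hG (hF 1 m1) (hyperfilter ℕ)
    (s := fun k : ℕ => s (1 / ((k : ℝ) + 1))) (fun k => (hs _ (md k)).1)
    fun k => hC _ A (hs _ (md k)).1 (key _ (md k) 1 m1 (md k).2)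
  refine ⟨t, ht, fun d hd => (hi _ (hF d hd)).2 A ?_, fun e he z hz S hS h => ?_⟩
  · filter_upwards [Nat.hyperfilter_le_atTop
      (tendsto_one_div_add_atTop_nhds_zero_nat.eventually (ge_mem_nhds hd.1))] with k hk
    exact key _ (md k) d hd hk
  · exact hS.mem_of_tendsto ((hl e he z hz).1.prodMk_nhds (hl e he z hz).2)
      (Eventually.of_forall fun k => h _ (md k))

/-- Division of a section by a section, from a family of integral bounds. -/
theorem divq45 (hG : M.Met G) (hΦ : M.WtC L Φ) {L₁ L₂ : M.Co} {Ψ : M.Fam ℝ} {h t : M.Fam ℂ}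
    (hh : M.Dw L₂ h Ψ) (hc : M.Ov fun e e' x => L.c e e' x = L₁.c e e' x * L₂.c e e' x)
    (ht : M.HSecC L t) {q : ℕ → M.X → ℝ} {c A : ℝ} (c0 : 0 < c) (hq : ∀ k, Continuous (q k))
    (q0 : ∀ k x, 0 ≤ q k x)
    (hl : ∀ x, M.nrC Ψ h x ≠ 0 → ∀ᶠ k in atTop, c ≤ M.nrC Ψ h x * q k x)
    (hA : ∀ k, ∫ x, M.nrC Φ t x * q k x ∂M.mu G ≤ A) :
    ∃ t₁, M.HSecC L₁ t₁ ∧ M.All fun e z => t e z = h e z * t₁ e z := by
  obtain ⟨-, -, -, -, hint, hch, -⟩ := mMU n M G hG
  have ct := (hΦ.nr_sm ht.toSecC).continuous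
  have fin : ∫⁻ x, ENNReal.ofReal (c * (M.nrC Φ t x / M.nrC Ψ h x)) ∂M.mu G ≤ ENNReal.ofReal A := by
    refine le_trans (lintegral_mono fun x => ?_) ((lintegral_liminf_le (μ := M.mu G) (u := atTop)
      (f := fun k x => ENNReal.ofReal (M.nrC Φ t x * q k x))
      fun k => (ct.mul (hq k)).measurable.ennreal_ofReal).trans ?_)
    · by_cases h0 : M.nrC Ψ h x = 0
      · simp [h0]
      refine le_liminf_of_le (by isBoundedDefault) ?_
      filter_upwards [hl x h0] with k hk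
      refine ENNReal.ofReal_le_ofReal ?_
      have p := lt_of_le_of_ne (Mf.nrC_nonneg Ψ h x) (Ne.symm h0)
      rw [← mul_div_assoc, div_le_iff₀ p]
      nlinarith [Mf.nrC_nonneg Φ t x]
    · refine liminf_le_of_frequently_le' (Eventually.of_forall fun k => ?_).frequently
      exact (ofReal_integral_eq_lintegral_ofReal (hint _ _ (ct.mul (hq k)))
        (Eventually.of_forall fun x => mul_nonneg (Mf.nrC_nonneg _ _ _) (q0 k x))).ge.trans
        (ENNReal.ofReal_le_ofReal (hA k))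
  have nz : ∀ e ∈ M.C, ∀ x ∈ e.source, M.nrC Ψ h x ≠ 0 ↔ h e (e x) ≠ 0 := fun e he x hx =>
    Mf.nrC_ne.trans (hh.hol.toSecC.ne_iff he hx)
  have ex : ∀ e : M.Ch, ∃ g : E n → ℂ, e ∈ M.C → DifferentiableOn ℂ g e.target ∧
      ∀ w ∈ e.target, h e w ≠ 0 → g w = t e w / h e w := by
    intro e
    by_cases he : e ∈ M.C
    swap
    · exact ⟨0, fun h => absurd h he⟩
    refine (SV.H85.ext_sq volume (f := fun w => t e w / h e w) (j := h e) e.open_target
      (fun z hz => (hh.hol.hol e he z hz).differentiableWithinAt) (fun z hz h0 => ?_)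
      (fun z hz => (((ht.hol e he z hz.1).mul ((hh.hol.hol e he z hz.1).inv hz.2)
        ).congr_of_eventuallyEq
          (Eventually.of_forall fun w => div_eq_mul_inv _ _)).differentiableWithinAt)
      fun z hz => ?_).imp fun g hg _ => hg
    · have hy := e.map_target hz
      have h1 : ∀ᶠ y in 𝓝 (e.symm z), h e (e y) = 0 :=
        (e.continuousAt hy).eventually (p := fun w => h e w = 0) (by rwa [e.right_inv hz])
      obtain ⟨y, y1, y2, y3⟩ := hh.den.inter_nhds_nonempty (h1.and (e.open_source.mem_nhds hy))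
      exact (nz e he y y3).1 y1 y2
    obtain ⟨ρ, hρ, hb⟩ := Metric.nhds_basis_closedBall.mem_iff.1 (e.open_target.mem_nhds hz)
    obtain ⟨D, hD, hD'⟩ := (mBD n M G hG).2.2.1 e he _ (isCompact_closedBall _ _) hb
    obtain ⟨U, hU⟩ := (isCompact_closedBall z ρ).exists_bound_of_continuousOn
      (f := fun w => Φ e w - Ψ e w) fun w hw => ((hΦ.sm e he w (hb hw)).sub
        (hh.wt.sm e he w (hb hw))).continuousAt.continuousWithinAt
    refine ⟨closedBall z ρ, closedBall_mem_nhds z hρ, ?_⟩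
    have f2 := ((hch e he _ measurableSet_closedBall hb).2.1 fun x =>
      ENNReal.ofReal (c * (M.nrC Φ t x / M.nrC Ψ h x))).symm.trans_le
      ((setLIntegral_le_lintegral _ _).trans fin)
    refine ne_top_of_le_ne_top (ENNReal.mul_ne_top (ENNReal.ofReal_ne_top
      (r := D * Real.exp U / c)) (ne_top_of_le_ne_top ENNReal.ofReal_ne_top f2)) ?_
    rw [← lintegral_const_mul' _ _ ENNReal.ofReal_ne_top]
    refine (lintegral_mono_set fun w hw => hw.1).trans
      (setLIntegral_mono_ae' measurableSet_closedBall (Eventually.of_forall fun w hw => ?_))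
    obtain ⟨-, -, d1, -⟩ := hD' w hw
    have D0 : 0 < D := by linarith
    have d0 : 0 < (G e w).det.re := lt_of_lt_of_le (by positivity) d1
    rw [← ENNReal.ofReal_mul d0.le, ← ENNReal.ofReal_mul (by positivity),
      hΦ.nr_rep ht.toSecC e he w (hb hw), hh.wt.nr_rep hh.hol.toSecC e he w (hb hw)]
    refine ENNReal.ofReal_le_ofReal ?_
    have e1 : 1 ≤ Real.exp U * (Real.exp (-Φ e w) / Real.exp (-Ψ e w)) := by
      rw [← Real.exp_sub, ← Real.exp_add]
      have := le_of_abs_le (hU w hw)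
      exact Real.one_le_exp (by linarith)
    have e2 : 1 ≤ D * (G e w).det.re := by
      rwa [inv_le_iff_one_le_mul₀' D0] at d1
    have e3 : 0 ≤ normSq (t e w) / normSq (h e w) := div_nonneg (normSq_nonneg _) (normSq_nonneg _)
    calc _ = 1 * 1 * (normSq (t e w) / normSq (h e w)) := by
          rw [← normSq_eq_norm_sq, map_div₀, one_mul, one_mul]
      _ ≤ D * (G e w).det.re * (Real.exp U * (Real.exp (-Φ e w) / Real.exp (-Ψ e w))) *
          (normSq (t e w) / normSq (h e w)) := by gcongr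
      _ = _ := by beta_reduce; rw [mul_div_mul_comm]; field_simp
  choose g hg using ex
  have da : M.All fun e z => DifferentiableAt ℂ (g e) z := fun e he z hz =>
    (hg e he).1.differentiableAt (e.open_target.mem_nhds hz)
  have c1 : ∀ u : M.Fam ℂ, (M.All fun e z => DifferentiableAt ℂ (u e) z) → ∀ e ∈ M.C,
      ∀ x ∈ e.source, ContinuousAt (fun y => u e (e y)) x := fun u hu e he x hx =>
    (hu.at he hx).continuousAt.comp (e.continuousAt hx)
  refine ⟨g, ⟨⟨fun e he z hz => ?_, fun e he e' he' x hx hx' => ?_⟩, da⟩,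
    Mf.allOn_of_source fun e he x hx => ?_⟩
  · exact ((SV.H85.contDiffOn_top e.open_target (hg e he).1).contDiffAt
      (e.open_target.mem_nhds hz)).restrict_scalars ℝ
  · have a1 : ContinuousAt (L₁.c e e') x :=
      ((L₁.hol e he e' he' x hx hx').self_of_nhds.continuousAt.comp (e'.continuousAt hx')).congr
        ((e'.eventually_left_inverse hx').mono fun y hy => congrArg (L₁.c e e') hy)
    refine KP.T73.eq_of_dense hh.den (c1 g da e' he' x hx')
      (g := fun y => g e (e y) * L₁.c e e' y) ((c1 g da e he x hx).mul a1) ?_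
    filter_upwards [e.open_source.mem_nhds hx, e'.open_source.mem_nhds hx'] with y d3 d4 d5
    have n1 := (nz e he y d3).1 d5
    have n2 := L₂.ne e he e' he' y d3 d4
    have b1 := ht.cmp e he e' he' y d3 d4
    have b2 := hh.hol.cmp e he e' he' y d3 d4
    have b3 := hc e he e' he' y d3 d4
    beta_reduce at n2 b1 b2 b3
    rw [(hg e he).2 _ (e.map_source d3) n1, (hg e' he').2 _ (e'.map_source d4)
      ((nz e' he' y d4).1 d5), b1, b2, b3]
    field_simp
  · refine KP.T73.eq_of_dense hh.den (c1 t ht.hol e he x hx)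
      (g := fun y => h e (e y) * g e (e y)) ((c1 h hh.hol.hol e he x hx).mul (c1 g da e he x hx)) ?_
    filter_upwards [e.open_source.mem_nhds hx] with y d3 d5
    have n1 := (nz e he y d3).1 d5
    rw [(hg e he).2 _ (e.map_source d3) n1]
    field_simp

/-- Division of a section by a section. -/
theorem div45 (hG : M.Met G) (hΦ : M.WtC L Φ) {L₁ L₂ : M.Co} {Ψ : M.Fam ℝ} {h t : M.Fam ℂ}
    (hh : M.Dw L₂ h Ψ) (hc : M.Ov fun e e' x => L.c e e' x = L₁.c e e' x * L₂.c e e' x)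
    (ht : M.HSecC L t) {m : ℕ} (hm : 0 < m) {a A : ℝ} (a0 : 0 < a)
    (hA : ∀ d ∈ Ioc (0 : ℝ) 1,
      ∫ x, M.nrC Φ t x * (a * M.nrC Ψ h x ^ m + d) ^ (-(1 / m : ℝ)) ∂M.mu G ≤ A) :
    ∃ t₁, M.HSecC L₁ t₁ ∧ M.All fun e z => t e z = h e z * t₁ e z := by
  have md : ∀ k : ℕ, 1 / ((k : ℝ) + 1) ∈ Ioc (0 : ℝ) 1 := fun k =>
    ⟨by positivity, by rw [div_le_one (by positivity)]; linarith [k.cast_nonneg (α := ℝ)]⟩
  have ch := (hh.wt.nr_sm hh.hol.toSecC).continuous
  have pos : ∀ (k : ℕ) x, 0 < a * M.nrC Ψ h x ^ m + 1 / ((k : ℝ) + 1) := fun k x => by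
    have := Mf.nrC_nonneg Ψ h x
    positivity
  refine divq45 hG hΦ hh hc ht (c := (2 * a) ^ (-(1 / m : ℝ)))
    (q := fun k x => (a * M.nrC Ψ h x ^ m + 1 / ((k : ℝ) + 1)) ^ (-(1 / m : ℝ))) (by positivity)
    (fun k => Continuous.rpow_const (by fun_prop) fun x => Or.inl (pos k x).ne')
    (fun k x => Real.rpow_nonneg (pos k x).le _) (fun x h0 => ?_) fun k => hA _ (md k)
  have p := lt_of_le_of_ne (Mf.nrC_nonneg Ψ h x) (Ne.symm h0)
  set N := M.nrC Ψ h x
  filter_upwards [tendsto_one_div_add_atTop_nhds_zero_nat.eventually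
    (ge_mem_nhds (mul_pos a0 (pow_pos p m)))] with k hk
  have m0 : (0 : ℝ) < m := by exact_mod_cast hm
  have e1 : (2 * a * N ^ m) ^ (-(1 / m : ℝ)) ≤ (a * N ^ m + 1 / ((k : ℝ) + 1)) ^ (-(1 / m : ℝ)) :=
    Real.rpow_le_rpow_of_nonpos (pos k x) (by linarith) (by simp)
  have e2 : (N ^ m) ^ (-(1 / m : ℝ)) = N⁻¹ := by
    rw [← Real.rpow_natCast, ← Real.rpow_mul p.le, mul_neg, mul_one_div_cancel m0.ne',
      Real.rpow_neg_one]
  rw [Real.mul_rpow (by positivity) (by positivity), e2] at e1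
  calc _ = N * ((2 * a) ^ (-(1 / m : ℝ)) * N⁻¹) := by field_simp
    _ ≤ _ := by gcongr

end Pool.Agent.Lib.RA2.T45
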