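import Pool.Agent.Lib.RA.T_MON
import Pool.Agent.Lib.RA.T_PH
import Pool.Agent.Lib.RA.T_PK
import Pool.Agent.Lib.RA2.T56a

/-! Project ra2: a flat line bundle on a simply connected manifold is trivial. -/

open scoped Classical Topology ContDiff ComplexOrder Matrix
open Set Complex Metric Filter

noncomputable section

namespace Pool.Agent.Lib.RA2.T56

open Pool.Agent.Lib.SV (E)
open Pool.Agent.Lib.HS32 Pool.Agent.Lib.RA

variable {n : ℕ} {M : Mf n} {L : M.Co}

theorem lpc (M : Mf n) : LocallyPathConnectedSpace M.X :=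
  letI : ChartedSpace (E n) M.X :=
    { atlas := M.C, chartAt := M.ch, mem_chart_source := Mf.mem_ch, chart_mem_atlas := Mf.ch_mem }
  ChartedSpace.locallyPathConnectedSpace (E n) M.X

/-- The family with the prescribed values in the chosen charts. -/
def sf (L : M.Co) (f : M.X → ℂ) : M.Fam ℂ :=
  fun e z => f (e.symm z) * L.c (M.ch (e.symm z)) e (e.symm z)

variable {f g : M.X → ℂ} {e e' : M.Ch} {x : M.X}

theorem sf_at (hx : x ∈ e.source) : sf L f e (e x) = f x * L.c (M.ch x) e x := by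
  simp only [sf, e.left_inv hx]

theorem sf_cmp (f : M.X → ℂ) :
    M.Ov fun e e' x => sf L f e' (e' x) = sf L f e (e x) * L.c e e' x := by
  intro e he e' he' x hx hx'
  rw [sf_at hx, sf_at hx', L.mul _ (Mf.ch_mem x) e he x (Mf.mem_ch x) hx e' he' hx', mul_assoc]

theorem ev_sf : M.ev (sf L f) = f := by
  funext x
  rw [Mf.ev, sf_at (Mf.mem_ch x), L.self (Mf.ch_mem x) (Mf.mem_ch x), mul_one]

theorem tend (hx : x ∈ e.source) : Tendsto e.symm (𝓝 (e x)) (𝓝 x) := by
  have := e.continuousAt_symm (e.map_source hx)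
  rwa [ContinuousAt, e.left_inv hx] at this

theorem sf_congr (hx : x ∈ e.source) (h : f =ᶠ[𝓝 x] g) : sf L f e =ᶠ[𝓝 (e x)] sf L g e :=
  ((tend hx).eventually h).mono fun w hw => by simp only [sf, hw]

/-- Holomorphy of a section does not depend on the chart. -/
theorem hol_chg {s : M.Fam ℂ} (he : e ∈ M.C) (he' : e' ∈ M.C) (hx : x ∈ e.source)
    (hx' : x ∈ e'.source)
    (hc : ∀ᶠ y in 𝓝 x, y ∈ e.source → y ∈ e'.source → s e' (e' y) = s e (e y) * L.c e e' y)
    (h : HolN (s e) (e x)) : HolN (s e') (e' x) := by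
  obtain ⟨h1, -, -, h2, -⟩ := (mTR n M).2.1 e he e' he' x hx hx'
  have h3 : HolN (fun w => s e ((e ∘ e'.symm) w) * L.c e e' (e'.symm w)) (e' x) := by
    have a : HolN (s e) ((e ∘ e'.symm) (e' x)) := by simpa [e'.left_inv hx'] using h
    filter_upwards [PK.hn_comp a h1, L.hol e he e' he' x hx hx'] with w u v using u.mul v
  refine PK.hn_congr h3 ?_
  filter_upwards [h2, (tend hx').eventually hc] with w ⟨a1, a2, a3, a4, a5, a6, a7⟩ b
  have := b a2 a3
  rw [a6] at this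
  exact this.symm

theorem nsq_chg {φ : M.Fam ℝ} (hφ : M.WtC L φ) (he : e ∈ M.C) (hx : x ∈ e.source) :
    normSq (sf L f e (e x)) = Real.exp (φ e (e x)) ↔ normSq (f x) = Real.exp (M.ev φ x) := by
  have h0 := normSq_pos.2 (L.ne _ (Mf.ch_mem x) e he x (Mf.mem_ch x) hx)
  have := hφ.cmp _ (Mf.ch_mem x) e he x (Mf.mem_ch x) hx
  beta_reduce at this
  rw [sf_at hx, this, Real.exp_add, Real.exp_log h0, map_mul, mul_left_inj' h0.ne']
  rfl

/-- Germs of holomorphic sections of norm one. -/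
def QQ (L : M.Co) (φ : M.Fam ℝ) (x : M.X) (f : M.X → ℂ) : Prop :=
  (∀ᶠ y in 𝓝 x, normSq (f y) = Real.exp (M.ev φ y)) ∧
    ∀ e ∈ M.C, x ∈ e.source → HolN (sf L f e) (e x)

theorem sec {φ : M.Fam ℝ} [Nonempty M.X] [SimplyConnectedSpace M.X] (hφ : M.WtC L φ)
    (h0 : M.All fun e z => M.hw φ e z = 0) : ∃ f, ∀ x, QQ L φ x f := by
  have := lpc M
  have key : ∀ x, ∃ O, IsOpen O ∧ x ∈ O ∧ (∃ g, ∀ z ∈ O, QQ L φ z g) ∧
      (∀ y ∈ O, ∀ f, QQ L φ y f → ∃ g, (∀ z ∈ O, QQ L φ z g) ∧ g =ᶠ[𝓝 y] f) ∧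
      ∀ g g', (∀ z ∈ O, QQ L φ z g) → (∀ z ∈ O, QQ L φ z g') → ∀ y ∈ O, g =ᶠ[𝓝 y] g' →
        EqOn g g' O := by
    intro x
    obtain ⟨e, he, hx⟩ := M.cov x
    obtain ⟨R, hR, hb⟩ := Metric.isOpen_iff.1 e.open_target _ (e.map_source hx)
    obtain ⟨A, hA, hA2, -⟩ := st_PH n (ball (e x) R) (φ e) isOpen_ball (convex_ball _ _)
      (fun z hz => hφ.sm e he z (hb hz)) fun z hz => h0 e he z (hb hz)
    have hO : IsOpen (e.source ∩ e ⁻¹' ball (e x) R) := e.isOpen_inter_preimage isOpen_ball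
    have dn : ∀ y ∈ e.source, L.c (M.ch y) e y ≠ 0 := fun y hy =>
      L.ne _ (Mf.ch_mem y) e he y (Mf.mem_ch y) hy
    have base : ∀ (c : ℂ), ∀ z ∈ e.target,
        sf L (fun y => c * cexp (A (e y)) / L.c (M.ch y) e y) e z = c * cexp (A z) :=
      fun c z hz => by
        simp only [sf, e.right_inv hz]
        exact div_mul_cancel₀ _ (dn _ (e.map_target hz))
    have nA : ∀ z ∈ ball (e x) R, normSq (cexp (A z)) = Real.exp (φ e z) := fun z hz => by
      rw [normSq_eq_norm_sq, norm_exp, hA2 z hz, two_mul, Real.exp_add, sq]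
    have qb : ∀ (c : ℂ), normSq c = 1 → ∀ z ∈ e.source ∩ e ⁻¹' ball (e x) R,
        QQ L φ z fun y => c * cexp (A (e y)) / L.c (M.ch y) e y := by
      intro c hc z hz
      refine ⟨?_, fun e' he' hz' => hol_chg he he' hz.1 hz'
        (Eventually.of_forall fun y a b => sf_cmp _ e he e' he' y a b) ?_⟩
      · filter_upwards [hO.mem_nhds hz] with y hy
        refine (nsq_chg (f := fun y => c * cexp (A (e y)) / L.c (M.ch y) e y) hφ he hy.1).1 ?_
        rw [base c _ (e.map_source hy.1), map_mul, hc, one_mul, nA _ hy.2]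
      · refine PK.hn_congr (f := fun w => c * cexp (A w))
          ((PK.hn_of_on isOpen_ball hA hz.2).mono fun w hw => hw.cexp.const_mul c) ?_
        filter_upwards [e.open_target.mem_nhds (e.map_source hz.1)] with w hw
        exact (base c w hw).symm
    refine ⟨_, hO, ⟨hx, mem_ball_self hR⟩, ⟨_, qb 1 (map_one _)⟩, fun y hy f hf => ?_,
      fun g g' hg hg' y hy h z hz => ?_⟩
    · have u1 : ∀ᶠ w in 𝓝 (e y), DifferentiableAt ℂ (fun w => sf L f e w / cexp (A w)) w := by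
        filter_upwards [hf.2 e he hy.1, PK.hn_of_on isOpen_ball hA hy.2] with w a b
        simp only [div_eq_mul_inv]
        exact a.mul (b.cexp.inv (exp_ne_zero _))
      have u2 : ∀ᶠ w in 𝓝 (e y), normSq (sf L f e w / cexp (A w)) = 1 := by
        filter_upwards [(tend hy.1).eventually hf.1, isOpen_ball.mem_nhds hy.2] with w a b
        have := (nsq_chg hφ he (e.map_target (hb b))).2 a
        rw [e.right_inv (hb b)] at this
        rw [map_div₀, this, nA w b, div_self (Real.exp_pos _).ne']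
      have u3 := Complex.eventually_eq_of_isLocalMax_norm u1 (u2.mono fun w hw => by
        simp only [Function.comp_apply, Complex.norm_def, hw, u2.self_of_nhds, le_refl])
      refine ⟨_, qb _ u2.self_of_nhds, ?_⟩
      filter_upwards [(e.continuousAt hy.1).eventually u3, hO.mem_nhds hy] with w a b
      rw [← a, sf_at b.1, div_mul_cancel₀ _ (exp_ne_zero _), mul_div_cancel_right₀ _ (dn _ b.1)]
    · have on : ∀ g, (∀ z ∈ e.source ∩ e ⁻¹' ball (e x) R, QQ L φ z g) →
          DifferentiableOn ℂ (sf L g e) (ball (e x) R) := fun g hg => PK.on_of_hn fun w hw => by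
        have := (hg (e.symm w) ⟨e.map_target (hb hw), by
          simpa only [mem_preimage, e.right_inv (hb hw)] using hw⟩).2 e he (e.map_target (hb hw))
        rwa [e.right_inv (hb hw)] at this
      have := PK.eqOn_convex isOpen_ball (convex_ball _ _) (on g hg) (on g' hg') hy.2
        (sf_congr hy.1 h) hz.2
      rwa [sf_at hz.1, sf_at hz.1, mul_left_inj' (dn z hz.1)] at this
  obtain ⟨x⟩ := ‹Nonempty M.X›
  obtain ⟨O, -, hx, ⟨g, hg⟩, -⟩ := key x
  obtain ⟨f, hf, -⟩ := st_MON M.X ℂ (QQ L φ) (fun x f g h hq =>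
    ⟨(hq.1.and h).mono fun y hy => hy.2 ▸ hy.1,
      fun e he hx => PK.hn_congr (hq.2 e he hx) (sf_congr hx h)⟩)
    (fun x => (key x).imp fun O h => ⟨h.1, h.2.1, h.2.2.2⟩) x g (hg x hx)
  exact ⟨f, hf⟩

theorem rank0 {A : Mat n} (h : A.rank ≤ 0) : A = 0 := by
  rw [Nat.le_zero, Matrix.rank, Submodule.finrank_eq_zero, LinearMap.range_eq_bot] at h
  exact Matrix.toLin'.injective (by rw [map_zero]; exact h)

/-- A flat bundle has a section without zeros. -/
theorem flat {φ : M.Fam ℝ} [Nonempty M.X] [SimplyConnectedSpace M.X] (hφ : M.WtC L φ)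
    (h0 : M.All fun e z => (M.hw φ e z).rank ≤ 0) : ∃ s, M.HSecC L s ∧ ∀ x, M.ev s x ≠ 0 := by
  obtain ⟨f, hf⟩ := sec hφ fun e he z hz => rank0 (h0 e he z hz)
  have hol : M.All fun e z => HolN (sf L f e) z :=
    Mf.allOn_of_source fun e he x hx => (hf x).2 e he hx
  refine ⟨sf L f, ⟨⟨fun e he z hz => ((mHOL n _ z).2.2 (hol e he z hz)).1, sf_cmp f⟩,
    fun e he z hz => (hol e he z hz).self_of_nhds⟩, fun x h => ?_⟩
  have h2 := (hf x).1.self_of_nhds
  rw [ev_sf] at h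
  rw [h, map_zero] at h2
  exact (Real.exp_pos _).ne h2

/-- One section that is not zero gives growth of order zero. -/
theorem many0 {s : M.Fam ℂ} (hs : M.HSecC L s) (h : M.ev s x ≠ 0) :
    ∃ κ : ℝ, 0 < κ ∧ ∀ a : ℕ, ∃ N : ℕ, κ * (a : ℝ) ^ 0 ≤ N ∧ ∃ t : Fin N → M.Fam ℂ,
      (∀ i, M.HSecC (L.pw a) (t i)) ∧ LinearIndependent ℂ fun i => M.ev (t i) :=
  many (s := Fin.elim0) hs (fun i => i.elim0) (Mf.ch_mem x) (Mf.ch_tgt x) h
    fun _ => ⟨0, Subsingleton.elim _ _⟩

end Pool.Agent.Lib.RA2.T56
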