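import Pool.Agent.Lib.RA2.T56a
import Pool.Agent.Lib.KP.B_NHS
import Pool.Agent.Lib.KP.B_KLI

/-! Project ra2: products of bundles, regularised weights and jets of quotients. -/

open scoped Classical Topology ContDiff ComplexOrder Matrix
open Set MeasureTheory Complex Metric Filter

noncomputable section

namespace Pool.Agent.Lib.RA2.T56

open Pool.Agent.Lib.SV (E)
open Pool.Agent.Lib.HS32

variable {n r : ℕ} {M : Mf n} {A B : M.Co} {φ ψ : M.Fam ℝ} {s t : M.Fam ℂ}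

/-- The product of two bundles. -/
def ml (A B : M.Co) : M.Co where
  c e e' x := A.c e e' x * B.c e e' x
  hol e he e' he' x hx hx' :=
    ((A.hol e he e' he' x hx hx').and (B.hol e he e' he' x hx hx')).mono fun _ h => h.1.mul h.2
  ne e he e' he' x hx hx' := mul_ne_zero (A.ne e he e' he' x hx hx') (B.ne e he e' he' x hx hx')
  mul e he e' he' x hx hx' e'' he'' hx'' := by
    rw [A.mul e he e' he' x hx hx' e'' he'' hx'', B.mul e he e' he' x hx hx' e'' he'' hx'']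
    ring

theorem hs_ml (hs : M.HSecC A s) (ht : M.HSecC B t) : M.HSecC (ml A B) fun e z => s e z * t e z :=
  hs_mul' hs ht fun _ _ _ _ _ _ _ => rfl

theorem wt_ml (h : M.WtC A φ) (h' : M.WtC B ψ) : M.WtC (ml A B) (φ + ψ) :=
  ⟨fun e he z hz => (h.sm e he z hz).add (h'.sm e he z hz), fun e he e' he' x hx hx' => by
    have a := h.cmp e he e' he' x hx hx'
    have b := h'.cmp e he e' he' x hx hx'
    simp only [Pi.add_apply, ml, map_mul] at a b ⊢
    rw [a, b, Real.log_mul (normSq_pos.2 (A.ne e he e' he' x hx hx')).ne'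
      (normSq_pos.2 (B.ne e he e' he' x hx hx')).ne']
    ring⟩

theorem wt_of (h : M.WtC A φ) (e : M.Ov fun e e' x => B.c e e' x = A.c e e' x) : M.WtC B φ :=
  ⟨h.sm, fun a ha b hb x hx hx' => by
    beta_reduce
    rw [e a ha b hb x hx hx']
    exact h.cmp a ha b hb x hx hx'⟩

theorem nr_ml (φ ψ : M.Fam ℝ) (s t : M.Fam ℂ) (x : M.X) :
    M.nrC (φ + ψ) (fun e z => s e z * t e z) x = M.nrC φ s x * M.nrC ψ t x := by
  simp only [Mf.nrC, Mf.ev, Pi.add_apply, map_mul, neg_add, Real.exp_add]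
  ring

theorem nr_pw (φ : M.Fam ℝ) (s : M.Fam ℂ) (k : ℕ) (x : M.X) :
    M.nrC ((k : ℝ) • φ) (fun e z => s e z ^ k) x = M.nrC φ s x ^ k := by
  simp only [Mf.nrC, Mf.ev, Pi.smul_apply, smul_eq_mul, map_pow, mul_pow, ← Real.exp_nat_mul,
    mul_neg]

theorem nr_addF (φ : M.Fam ℝ) (s : M.Fam ℂ) (w : M.X → ℝ) (x : M.X) :
    M.nrC (φ + fun e z => w (e.symm z)) s x = M.nrC φ s x * Real.exp (-w x) := by
  simp only [Mf.nrC, Mf.ev, Pi.add_apply, Mf.ch_symm, neg_add, Real.exp_add, mul_assoc]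

theorem dw_pw (h : M.Dw A s φ) (k : ℕ) : M.Dw (A.pw k) (fun e z => s e z ^ k) ((k : ℝ) • φ) :=
  ⟨hs_pw h.hol k, (h.wt.pw k).1, h.den.mono fun x hx => by
    change M.nrC _ _ x ≠ 0
    rw [nr_pw]; exact pow_ne_zero k hx⟩

theorem d1 {δ u : ℝ} (h : 0 < u + δ) : HasDerivAt (fun s => Real.log (s + δ)) (u + δ)⁻¹ u := by
  simpa using ((hasDerivAt_id u).add_const δ).log h.ne'

theorem d2 {δ u : ℝ} (h : 0 < u + δ) :
    deriv (deriv fun s => Real.log (s + δ)) u = -((u + δ) ^ 2)⁻¹ := by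
  have h1 : (deriv fun s => Real.log (s + δ)) =ᶠ[𝓝 u] fun s => (s + δ)⁻¹ :=
    ((continuous_id.add continuous_const).continuousAt.eventually (lt_mem_nhds h)).mono
      fun s hs => (d1 hs).deriv
  rw [h1.deriv_eq]
  simpa [neg_div] using (((hasDerivAt_id u).add_const δ).fun_inv h.ne').deriv

/-- The regularised singular weight keeps non-negative curvature. -/
theorem psd_log (hf : M.HSecC A s) (hφ : M.WtC A φ) (h0 : M.Le 0 (M.hw φ)) {δ : ℝ} (hδ : 0 < δ) :
    M.All fun e z => (M.hw φ e z + M.hs (fun x => Real.log (M.nrC φ s x + δ)) e z).PosSemidef := by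
  intro e he z hz
  have hs := hφ.nr_sm hf.toSecC
  have hp : ∀ x, 0 < M.nrC φ s x + δ := fun x =>
    add_pos_of_nonneg_of_pos (M.nrC_nonneg φ s x) hδ
  have h2 := (((mLAP n M _ _ hs hs).2.1 (fun s => Real.log (s + δ)) fun x =>
    (contDiffAt_id.add contDiffAt_const).log (hp x).ne').2 e he z hz).1
  obtain ⟨h3, h4, -⟩ := KP.st_NHS n M A s φ hf hφ e he z hz
  have h5 := hp (e.symm z)
  have h6 := ((h0 e he z hz).smul (div_pos hδ h5).le).add
    ((Matrix.posSemidef_vecMulVec_star_self (M.cv φ s e z)).smul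
      (show 0 ≤ δ * Real.exp (-φ e z) / (M.nrC φ s (e.symm z) + δ) ^ 2 by positivity))
  rw [h2, h3, h4, (d1 h5).deriv, d2 h5]
  refine (congrArg Matrix.PosSemidef ?_).mp h6
  simp only [Pi.zero_apply, sub_zero]
  match_scalars <;> field_simp <;> ring

theorem rp_pow {m : ℕ} (hm : 0 < m) {u : ℝ} (hu : 0 < u) : (u ^ (-(1 / m : ℝ))) ^ m = u⁻¹ := by
  have : (m : ℝ) ≠ 0 := by positivity
  rw [← Real.rpow_natCast, ← Real.rpow_mul hu.le, neg_mul, one_div_mul_cancel this,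
    Real.rpow_neg_one]

theorem rp_key {m : ℕ} (hm : 0 < m) {b P P₀ K d x : ℝ} (hb : 0 ≤ b) (hP : 0 ≤ P) (h1 : P ≤ P₀)
    (h0 : 0 < P₀) (hd : 0 < d) (hK : 0 ≤ K) (h : x ^ m ≤ K ^ m * P) :
    x * (b * P + d) ^ (-(1 / m : ℝ)) ≤ K * (b + d / P₀) ^ (-(1 / m : ℝ)) := by
  have p1 : 0 < b * P + d := by positivity
  have p2 : 0 < b + d / P₀ := by positivity
  refine le_of_pow_le_pow_left₀ hm.ne' (by positivity) ?_
  rw [mul_pow, mul_pow, rp_pow hm p1, rp_pow hm p2, ← div_eq_mul_inv, ← div_eq_mul_inv,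
    div_le_div_iff₀ p1 p2]
  have a : P * (d / P₀) ≤ d := by
    rw [← mul_div_assoc, div_le_iff₀ h0]; nlinarith
  calc _ ≤ K ^ m * P * (b + d / P₀) := mul_le_mul_of_nonneg_right h p2.le
    _ = K ^ m * (b * P + P * (d / P₀)) := by ring
    _ ≤ _ := mul_le_mul_of_nonneg_left (by linarith) (pow_nonneg hK m)

theorem rp_le {a c u : ℝ} (ha : 0 ≤ a) (h : a ≤ c) (hu : 0 < u) : u ^ (-a) ≤ 1 + u ^ (-c) := by
  rcases le_total u 1 with h1 | h1
  · linarith [Real.rpow_le_rpow_of_exponent_ge hu h1 (neg_le_neg h)]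
  · linarith [Real.rpow_le_one_of_one_le_of_nonpos h1 (neg_nonpos.2 ha), Real.rpow_nonneg hu.le (-c)]

theorem ct_rp {N : M.X → ℝ} (hN : Continuous N) (h0 : ∀ x, 0 ≤ N x) {d : ℝ} (hd : 0 < d) (a : ℝ) :
    Continuous fun x => (N x + d) ^ a :=
  (hN.add continuous_const).rpow_const fun x => Or.inl (add_pos_of_nonneg_of_pos (h0 x) hd).ne'

/-- The klt condition with a smaller exponent. -/
theorem kli [M.Cpt] {G : M.Fam (Mat n)} (hG : M.Met G) (hf : M.HSecC A s) (hφ : M.WtC A φ)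
    {a c : ℝ} (ha : 0 < a) (h : a ≤ c) (hc : M.Lct s c) :
    ∃ C : ℝ, ∀ δ : ℝ, 0 < δ → ∫ x, (M.nrC φ s x + δ) ^ (-a) ∂M.mu G ≤ C := by
  obtain ⟨-, C, hC⟩ := KP.st_KLI n M G A s φ c hG hf hφ (ha.trans_le h) hc
  have hint := (mMU n M G hG).2.2.2.2.1 ℝ
  refine ⟨∫ _, 1 ∂M.mu G + C, fun δ hδ => ?_⟩
  have ct := ct_rp (hφ.nr_sm hf.toSecC).continuous (M.nrC_nonneg φ s) hδ
  refine (integral_mono (hint _ (ct _)) ((hint _ continuous_const).add (hint _ (ct _)))
    fun x => rp_le ha.le h (add_pos_of_nonneg_of_pos (M.nrC_nonneg φ s x) hδ)).trans ?_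
  have := integral_add (hint (fun _ => 1) continuous_const) (hint _ (ct (-c)))
  simp only [Pi.add_apply]
  linarith [hC δ hδ]

/-- The derivative of the quotients as a function of the jets. -/
def qd (p : Option (Fin r) → ℂ × (E n →L[ℂ] ℂ)) : E n →L[ℂ] E r :=
  ContinuousLinearMap.pi fun i =>
    (p none).1⁻¹ • (p (some i)).2 - ((p (some i)).1 * ((p none).1 ^ 2)⁻¹) • (p none).2

theorem qd_cont {p : Option (Fin r) → ℂ × (E n →L[ℂ] ℂ)} (h : (p none).1 ≠ 0) :
    ContinuousAt qd p := by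
  refine continuousAt_clm_apply.2 fun v => continuousAt_pi.2 fun i => ?_
  have a : ∀ o, Continuous fun p : Option (Fin r) → ℂ × (E n →L[ℂ] ℂ) => (p o).1 :=
    fun o => by fun_prop
  have b : ∀ o, Continuous fun p : Option (Fin r) → ℂ × (E n →L[ℂ] ℂ) => (p o).2 v :=
    fun o => (by fun_prop : Continuous fun p : Option (Fin r) → ℂ × (E n →L[ℂ] ℂ) =>
      (p o).2).clm_apply continuous_const
  exact (((a none).continuousAt.inv₀ h).mul (b _).continuousAt).sub
    (((a _).continuousAt.mul (((a none).continuousAt.pow 2).inv₀ (pow_ne_zero 2 h))).mul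
      (b none).continuousAt)

theorem qd_eq {t : Option (Fin r) → E n → ℂ} {z : E n} (h : ∀ o, DifferentiableAt ℂ (t o) z)
    (h0 : t none z ≠ 0) :
    fderiv ℂ (fun w i => t (some i) w / t none w) z = qd fun o => (t o z, fderiv ℂ (t o) z) := by
  refine (hasFDerivAt_pi.2 fun i => ?_).fderiv
  have a := (h (some i)).hasFDerivAt.mul
    ((hasDerivAt_inv h0).comp_hasFDerivAt z (h none).hasFDerivAt)
  simp only [div_eq_mul_inv]
  refine a.congr_fderiv ?_
  ext1 v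
  simp
  ring

theorem near (hO : IsOpen {A : E n →L[ℂ] E r | Function.Surjective A})
    {g : Option (Fin r) → E n → ℂ} {z : E n} (h : ∀ o, DifferentiableAt ℂ (g o) z)
    (h0 : g none z ≠ 0)
    (hs : Function.Surjective (fderiv ℂ (fun w i => g (some i) w / g none w) z)) :
    ∃ κ : ℝ, 0 < κ ∧ ∀ t : Option (Fin r) → E n → ℂ, (∀ o, DifferentiableAt ℂ (t o) z) →
      (∀ o, ‖t o z - g o z‖ ≤ κ ∧ ‖fderiv ℂ (t o) z - fderiv ℂ (g o) z‖ ≤ κ) →
      t none z ≠ 0 ∧ Function.Surjective (fderiv ℂ (fun w i => t (some i) w / t none w) z) := by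
  rw [qd_eq h h0] at hs
  have a : ∀ᶠ p in 𝓝 fun o => (g o z, fderiv ℂ (g o) z), Function.Surjective (qd p) :=
    (qd_cont h0).eventually (hO.mem_nhds hs)
  have b : ∀ᶠ p in 𝓝 fun o => (g o z, fderiv ℂ (g o) z), (p none).1 ≠ 0 :=
    (continuous_apply none).fst.continuousAt.eventually_ne h0
  obtain ⟨κ, k0, hk⟩ := nhds_basis_closedBall.eventually_iff.1 (a.and b)
  refine ⟨κ, k0, fun t ht hd => ?_⟩
  have := hk (x := fun o => (t o z, fderiv ℂ (t o) z)) (by
    rw [mem_closedBall, dist_pi_le_iff k0.le]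
    intro o
    rw [Prod.dist_eq, dist_eq_norm, dist_eq_norm]
    exact max_le (hd o).1 (hd o).2)
  exact ⟨this.2, by rw [qd_eq ht this.2]; exact this.1⟩

end Pool.Agent.Lib.RA2.T56
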